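import Pool.Agent.Zk18.Th.Stm2

/-!
# Module GAI (for helper18): algebraic independence at a special point implies it at the generic point
-/

set_option autoImplicit false

namespace Pool.Agent.Zk55.Th18

open TensorProduct Pool.Agent.Zk18.Fd Pool.Agent.Zk18.Th

theorem t_GAI (h : S_GLI) : S_GAI := by
  intro K F L E A _ _ _ _ _ _ _ _ _ _ _ _ _ _ hpm ι hι s m τ hτ
  rw [algebraicIndependent_iff]
  intro P hP
  by_contra hne
  let T : P.support → A ⊗[K] L := fun d => ∏ i, τ i ^ (d.1 i)
  have h1 : LinearIndependent K (fun d : P.support => sg L s (T d)) := by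
    have h2 : LinearIndependent K (fun d : Fin m →₀ ℕ =>
        MvPolynomial.aeval (fun i => sg L s (τ i)) (MvPolynomial.monomial d (1 : K))) := by
      have h3 := (MvPolynomial.basisMonomials (Fin m) K).linearIndependent
      have h4 := h3.map' (MvPolynomial.aeval (R := K) (fun i => sg L s (τ i))).toLinearMap
        (LinearMap.ker_eq_bot.2 hτ)
      have e : (fun d : Fin m →₀ ℕ =>
          MvPolynomial.aeval (fun i => sg L s (τ i)) (MvPolynomial.monomial d (1 : K))) =
          (MvPolynomial.aeval (R := K) (fun i => sg L s (τ i))).toLinearMap ∘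
            (MvPolynomial.basisMonomials (Fin m) K) := by
        funext d
        rw [Function.comp_apply, MvPolynomial.coe_basisMonomials]
        rfl
      rw [e]
      exact h4
    have h5 := h2.comp (Subtype.val : P.support → _) Subtype.val_injective
    convert h5 using 1
    funext d
    rw [Function.comp_apply, MvPolynomial.aeval_monomial, map_one, one_mul, Finsupp.prod_fintype _ _ (fun i => pow_zero _)]
    change sg L s (∏ i, τ i ^ (d.1 i)) = _
    rw [map_prod]
    exact Finset.prod_congr rfl fun i _ => map_pow _ _ _
  have h6 := h K F L E A hpm ι hι s P.support T h1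
  rw [Fintype.linearIndependent_iff] at h6
  have h7 : ∑ d : P.support, P.coeff d.1 •
      pm K F L E (Algebra.TensorProduct.map ι (AlgHom.id K L) (T d)) = 0 := by
    refine (Finset.sum_coe_sort P.support (fun d => P.coeff d •
      pm K F L E (Algebra.TensorProduct.map ι (AlgHom.id K L) (∏ i, τ i ^ (d i))))).trans ?_
    rw [← hP, MvPolynomial.aeval_def, MvPolynomial.eval₂_eq']
    refine Finset.sum_congr rfl fun d _ => ?_
    rw [Algebra.smul_def]
    congr 1
    rw [map_prod, map_prod]
    exact Finset.prod_congr rfl fun i _ => by rw [map_pow, map_pow]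
  obtain ⟨d, hd⟩ := (MvPolynomial.support_nonempty.2 hne)
  have h8 := h6 (fun d => P.coeff d.1) h7 ⟨d, hd⟩
  exact (MvPolynomial.mem_support_iff.1 hd) h8

end Pool.Agent.Zk55.Th18
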